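import Pool.Agent.K9h39.Zombie.Final

/-!
# The zombie number of the toroidal grid is `O(n ^ (3/2))`

The definitions of the game are in `Pool/Agent/K9h39/Zombie/Defs.lean`.

Proof. For a trajectory of the survivor of length `T` let `A` be the sum, over all starting vertices
of a zombie, of the probabilities that it catches a survivor with this trajectory. Since the zombies
are independent, the probability that `k` zombies do not catch this trajectory is
`(1 - A / n ^ 2) ^ k`, and there are at most `n ^ 2 * 5 ^ T` trajectories; so the survivor survives `T`
rounds with probability at most `n ^ 2 * 5 ^ T * exp (- k * A / n ^ 2)`, whatever his strategy is.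

The main point is that `A ≥ c * T ^ (3/2)` for all trajectories with `T ≤ n / 4`. Compare the
trajectory with the one without its first step. The number of vertices from which a zombie reaches a
given vertex in one step (counted with probabilities) is one, but two on the row and on the column of
the survivor. So `A` increases by the sums of the probabilities of a later catch over the row and
over the column of the survivor. The sum over a row is at least twice the expected number of times at
which a particle is in the row of the survivor that starts in this row and moves with probability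
`1/2` to the next row in the direction of the survivor. If at most half of the `s` remaining steps
are vertical then this is at least `2 * E (W_s)^+`, where `W_s` is the simple random walk, which has
order `s ^ (1/2)`; and at most half of the steps are vertical or at most half are horizontal.
-/

set_option autoImplicit false

namespace Pool.Agent.Results.MP_34e428_co.ThreeHalves

open Pool.Agent.K9h39.Zombie Filter

/-- The numbers `surviveProb` are probabilities (so the supremum and the infimum in the definition
of the value of the game are suprema and infima of bounded sets). -/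
theorem surviveProb_mem {V : Type} [Fintype V] (G : SimpleGraph V) {k : ℕ}
    (σ : List (Fin k → V) → V) (t : ℕ) : 0 ≤ surviveProb G σ t ∧ surviveProb G σ t ≤ 1 := by
  classical
  refine ⟨surviveProb_nonneg G σ t, ?_⟩
  have h : ∀ t Z h, survive G σ t Z h ≤ 1 := by
    intro t
    induction t with
    | zero => intro Z h; exact le_rfl
    | succ t ih =>
      intro Z h
      unfold survive
      calc _ ≤ ∑ Z' : Fin k → V, ∏ i, moveProb G (Z i) (σ (Z :: h)) (Z' i) := by
            refine Finset.sum_le_sum fun Z' _ => ?_
            have h1 : 0 ≤ ∏ i, moveProb G (Z i) (σ (Z :: h)) (Z' i) :=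
              Finset.prod_nonneg fun i _ => moveProb_nonneg G _ _ _
            split_ifs
            · calc _ ≤ (∏ i, moveProb G (Z i) (σ (Z :: h)) (Z' i)) * 1 :=
                    mul_le_mul_of_nonneg_left (ih _ _) h1
                _ = _ := mul_one _
            · rw [mul_zero]; exact h1
        _ = ∏ i, ∑ w, moveProb G (Z i) (σ (Z :: h)) w := by
            have h7 := Finset.prod_univ_sum (fun _ : Fin k => (Finset.univ : Finset V))
              (fun i w => moveProb G (Z i) (σ (Z :: h)) w)
            rw [Fintype.piFinset_univ] at h7
            exact h7.symm
        _ ≤ 1 := Finset.prod_le_one (fun i _ => Finset.sum_nonneg fun w _ => moveProb_nonneg G _ _ _)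
            fun i _ => sum_moveProb_le G _ _
  unfold surviveProb
  apply div_le_one_of_le₀ _ (by positivity)
  calc _ ≤ ∑ Z : Fin k → V, (1 : ℝ) := by
        refine Finset.sum_le_sum fun Z _ => ?_
        split_ifs
        · exact h _ _ _
        · exact zero_le_one
    _ = _ := by simp

/-- For all large `n` the zombie number of the toroidal `n × n` grid is at most `10 n ^ (3/2)`. -/
theorem result : ∀ᶠ n : ℕ in atTop,
    (zombieNumber (torus n) : ℝ) ≤ 10 * (n : ℝ) ^ (3 / 2 : ℝ) ∧
    survivorValue (torus n) (zombieNumber (torus n)) ≤ 1 / 2 := by
  filter_upwards [survivorValue_le] with n hn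
  have h1 : zombieNumber (torus n) ≤ ⌊10 * ((n : ℝ) * Real.sqrt n)⌋₊ := Nat.sInf_le hn
  have h2 : (n : ℝ) * Real.sqrt n = (n : ℝ) ^ (3 / 2 : ℝ) := by
    rcases Nat.eq_zero_or_pos n with rfl | hn0
    · norm_num
    · have hn1 : (0 : ℝ) < n := by exact_mod_cast hn0
      rw [show (3 / 2 : ℝ) = 1 + 1 / 2 by norm_num, Real.rpow_add hn1, Real.rpow_one,
        Real.sqrt_eq_rpow]
  refine ⟨?_, Nat.sInf_mem (s := {k : ℕ | survivorValue (torus n) k ≤ 1 / 2}) ⟨_, hn⟩⟩
  rw [← h2]
  calc (zombieNumber (torus n) : ℝ) ≤ (⌊10 * ((n : ℝ) * Real.sqrt n)⌋₊ : ℝ) := by exact_mod_cast h1
    _ ≤ _ := Nat.floor_le (by positivity)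

end Pool.Agent.Results.MP_34e428_co.ThreeHalves
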